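import Mathlib
import Pool.Agent.K1H15.BC.Ring

/-!
# Tate classes on powers of abelian varieties over finite fields are generated in bounded codimension

Let `B` be an abelian variety of dimension `g` over a finite field with `q = p ^ m` elements and `P` the
characteristic polynomial of its Frobenius endomorphism.  The theorem says that on every power of `B`, and
on every abelian variety `X` whose simple factors are isogenous to factors of `B`, all Tate classes, in
all codimensions and over all finite extensions of the field, are in the ring generated by the Tate
classes of codimension at most

  `(2 g) ^ 2 (2 g d) ^ g`,  where `d` is the least common multiple of `1, ..., 2 g`.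

This number depends only on `g`: not on `B`, not on the power, and not on `q`.  So for each `g` the Tate
conjecture for all powers of all abelian varieties of dimension `g` over all finite fields follows from
the Tate conjecture in bounded codimension for these varieties.

The proof.  A product of `n` roots `α` of `P` belongs to a Tate class if some power `s` of it is
`q ^ (s n / 2)`.  By the theorem of Kronecker and the product formula this is a system of linear equations
for the multiplicities of the roots: for each embedding into the algebraic closure of `ℚ_p`
the sum of the numbers `2 λ - 1` is zero, where `λ` are the slopes.  By the theorem of Manin the slopes
have denominators at most `2 g`, and `α ↦ q / α` shows that the rank of this system is at most `g`.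
By the lemma of Siegel, applied to a maximal independent set of equations, restricted to the support of
a solution, there are bounded solutions, and by an argument of Carathéodory's type each solution in
nonnegative integers is a sum of bounded ones.
-/

set_option autoImplicit false

namespace Pool.Agent.Results.MP_7b53ad_ag.BoundedCodimension

open Polynomial Pool.Agent.W527.TateRing Pool.Agent.K1H15.BC

theorem result (g p m : ℕ) [Fact p.Prime] (hm : 0 < m) (P : ℤ[X])
    (hP : IsFrobeniusPolynomial p m g P) (Ω : Type) [Field Ω] [CharZero Ω] [IsAlgClosed Ω]
    (X : FrobSpace Ω) (hX : HasEigenvaluesIn P X) (κ : Type) [Finite κ] (hκ : Even (Nat.card κ))
    (f : Coh X κ) :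
    IsTate (p ^ m) f ↔ Generated (p ^ m) (bound g) X κ f :=
  main g p m hm P hP X hX κ hκ f

end Pool.Agent.Results.MP_7b53ad_ag.BoundedCodimension
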