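import Mathlib
import Pool.Agent.K1H13.N.Desc
import Pool.Agent.Y126.Glue
import Pool.Agent.TH118.CU.Final

/-!
# The codimension two classes on `A ^ 4` control the Tate classes on all powers of `A`

Let `A` be an abelian variety over a finitely generated field of any characteristic, `ℓ` a prime
number different from the characteristic, `V = V_ℓ(A)` the rational Tate module with the action `ρ`
of the Galois group `Γ`, `χ` the cyclotomic character and `ω` the Weil pairing of a polarization; `K` is
the algebraic closure of `ℚ_ℓ` and `X = K ⊗ V`.  By theorems of Zarhin, Mori and Faltings `V` is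
semisimple, also over finite extensions (`hsemisimple`), and all Tate classes of degree two are
combinations of classes of divisors.

The theorem.  Assume that all Tate classes of codimension two on the fourth power `A ^ 4` are
combinations of products of two divisor classes (`hfour`), that there are no factors of type III
(`hIII`: a self-dual strongly irreducible subspace of `X` is symplectic) and that a strongly
irreducible subspace which is not self-dual does not have dimension two (`hIV`; there are no such
subspaces for types I and II, in particular if `End(A) = ℤ` over the algebraic closure).  Then all Tate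
classes on all powers of `A`, in all codimensions, are combinations of products of divisor classes and
of Weil classes, and of products of divisor classes only if there are no Weil families; in
particular if all strongly irreducible subspaces are self-dual (types I and II).  So in the last case the
Tate conjecture for all powers of `A`, in all codimensions, follows from a statement about one
cohomology group of one variety, which is necessary as well.

There is no hypothesis on places, on Frobenius elements, on inertia groups, on the weights of the Hodge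
structure or on the dimension of `A`, and none on the group of connected components.

One cannot replace `A ^ 4` by a smaller power: there are abelian varieties of dimension ten with
`End(A) = ℤ` for which `V` is the third exterior power of a space of dimension six, as a
representation of a group of type `A_5`.  Then `V ⊗ V` is a sum of four irreducible representations, not
of three as for the symplectic group, so that there is exactly one additional invariant form in four
variables.  It is symmetric, and the symmetric forms in four variables on `V` contribute to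
`Λ ^ 4 (V ^ n)` only if `n ≥ 4`.

The proof.  The Lie algebra of all operators which act on all semi-invariant forms through derivations up
to the group of characters is stable under the group.  By the hypothesis its Casimir-type form in four
variables is a combination of products, and this gives operators of rank one and square zero, on
each strongly irreducible subspace.  That the algebra is not scalar there follows from a bound for the
roots of unity which are quotients of eigenvalues of elements of the group, since these have bounded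
degree over `ℚ_ℓ`.
-/

set_option autoImplicit false

namespace Pool.Agent.Results.MP_7b53ad_ag.CodimensionTwoControls

open Module TensorProduct Pool.Agent.Y126.Notions

noncomputable section

open Pool.Agent.H204R3.SP Pool.Agent.H204R3.GP Pool.Agent.W522.U Pool.Agent.K1H13.N

theorem result (ℓ : ℕ) [Fact ℓ.Prime] {V Γ : Type} [AddCommGroup V] [Module ℚ_[ℓ] V]
    [FiniteDimensional ℚ_[ℓ] V] [Group Γ] (ρ : Representation ℚ_[ℓ] Γ V) (χ : Γ →* ℚ_[ℓ])
    (ω : V →ₗ[ℚ_[ℓ]] V →ₗ[ℚ_[ℓ]] ℚ_[ℓ]) (halt : ∀ v, ω v v = 0)
    (hnondeg : ∀ u, (∀ v, ω v u = 0) → u = 0)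
    (hω : ∀ s u v, ω (ρ s u) (ρ s v) = χ s * ω u v)
    (hsemisimple : PotentiallySemisimple ρ)
    (hfour : ∀ f : (Fin 4 → V) [⋀^Fin 2 × Fin 2]→ₗ[ℚ_[ℓ]] ℚ_[ℓ], IsTateClass ρ χ f →
      f ∈ Submodule.span ℚ_[ℓ] {g : (Fin 4 → V) [⋀^Fin 2 × Fin 2]→ₗ[ℚ_[ℓ]] ℚ_[ℓ] |
        ∃ B : Fin 2 → (Fin 4 → V) [⋀^Fin 2]→ₗ[ℚ_[ℓ]] ℚ_[ℓ],
          (∀ l, IsTateClassTwo ρ χ (B l)) ∧
          ∀ v, g v = ∑ σ : Equiv.Perm (Fin 2 × Fin 2), ((Equiv.Perm.sign σ : ℤ) : ℚ_[ℓ]) *
            ∏ l, B l ![v (σ (l, 0)), v (σ (l, 1))]})
    (hIII : ∀ U, StronglyIrreducible (extend (AlgebraicClosure ℚ_[ℓ]) ρ) U →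
      AreDual (extend (AlgebraicClosure ℚ_[ℓ]) ρ)
        ((algebraMap ℚ_[ℓ] (AlgebraicClosure ℚ_[ℓ]) : ℚ_[ℓ] →* _).comp χ) U U →
      IsSymplectic (extend (AlgebraicClosure ℚ_[ℓ]) ρ)
        ((algebraMap ℚ_[ℓ] (AlgebraicClosure ℚ_[ℓ]) : ℚ_[ℓ] →* _).comp χ) U)
    (hIV : ∀ U, StronglyIrreducible (extend (AlgebraicClosure ℚ_[ℓ]) ρ) U →
      ¬AreDual (extend (AlgebraicClosure ℚ_[ℓ]) ρ)
        ((algebraMap ℚ_[ℓ] (AlgebraicClosure ℚ_[ℓ]) : ℚ_[ℓ] →* _).comp χ) U U →
      finrank (AlgebraicClosure ℚ_[ℓ]) U ≠ 2) :
    GeneratedByWeilClasses (AlgebraicClosure ℚ_[ℓ]) ρ χ ω ∧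
    ((∀ (Q : Type) [Fintype Q] [Nonempty Q]
      (L : Q → Submodule (AlgebraicClosure ℚ_[ℓ]) (AlgebraicClosure ℚ_[ℓ] ⊗[ℚ_[ℓ]] V)),
      ¬IsWeilFamily (extend (AlgebraicClosure ℚ_[ℓ]) ρ)
        ((algebraMap ℚ_[ℓ] (AlgebraicClosure ℚ_[ℓ]) : ℚ_[ℓ] →* _).comp χ) L) →
      GeneratedInDegreeTwo ρ χ) ∧
    ((∀ U, StronglyIrreducible (extend (AlgebraicClosure ℚ_[ℓ]) ρ) U →
      AreDual (extend (AlgebraicClosure ℚ_[ℓ]) ρ)
        ((algebraMap ℚ_[ℓ] (AlgebraicClosure ℚ_[ℓ]) : ℚ_[ℓ] →* _).comp χ) U U) →
      GeneratedInDegreeTwo ρ χ) := by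
  have hl1 : ∀ u, (∀ v, bcb (AlgebraicClosure ℚ_[ℓ]) ω u v = 0) → u = 0 := fun u hu =>
    bcb_nondeg_left ω hnondeg (left_nondeg ω halt hnondeg) u hu
  have hinv := bcb_inv (Ω := AlgebraicClosure ℚ_[ℓ]) ρ χ ω hω
  have hpr : HasProj (bcr ρ (AlgebraicClosure ℚ_[ℓ])) := hasProj_bcr ρ _ hsemisimple
  have halt' := Pool.Agent.TH118.CU.bcb_alt (Ω := AlgebraicClosure ℚ_[ℓ]) ω halt
  have h4 : FourK (bcr ρ (AlgebraicClosure ℚ_[ℓ])) (bcc χ (AlgebraicClosure ℚ_[ℓ])) :=
    four_ext ρ χ (four_of_power hfour)
  have h := Pool.Agent.Y126.Glue.conclusion ℓ ρ χ ω halt hnondeg hω hsemisimple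
    (fun U hU h2 => one_of_four halt' hl1 hinv hpr (bdd_bcr ρ) h4 hIII hU h2)
    (fun U hU h1 hd => ?_) (fun U U' hU hU' h2 hnd ψ ht => ?_)
  · refine ⟨h.1, h.2, fun hsd => h.2 ?_⟩
    intro Q _ _ L hL
    obtain ⟨q⟩ := ‹Nonempty Q›
    exact hL.2.1 q q (hsd _ (hL.1 q))
  · obtain ⟨Δ, hΔ, B, ⟨u, hu, v, hv, huv⟩, hB0, -⟩ := hIII U hU hd
    exact huv (line_alt h1 hB0 hu hv)
  · refine no_twist halt' hl1 hinv hpr h4 hU hU' ?_ ht
    have h3 := hIV U hU hnd
    omega

end

end Pool.Agent.Results.MP_7b53ad_ag.CodimensionTwoControls
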