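import Mathlib
import Pool.Agent.K1H15.P1.Ten

/-!
# The projectors onto the Tate classes are generated by the Tate classes of codimension two on `A ^ 4`

Let `A` be an abelian variety over a finitely generated field `k`, of any characteristic, and `ℓ` a
prime number different from the characteristic. Let `V = V_ℓ(A)` be the rational Tate module (or
`V = H¹(A, ℚ_ℓ)`), with the action `ρ` of the Galois group and the pairing `ω` given by a
polarization. By Faltings, Zarhin and Mori `V` is semisimple, also over finite extensions (`hss`).

The multilinear forms in `2m` variables on `V` are the Künneth component `H¹(A)^{⊗ 2m}(m)` of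
`H^{2m}(A ^ {2m})(m)`, and the Tate classes in it are the Tate forms `IsTate ρ χ m` (the cohomology
groups `H^{2m}(A ^ n)(m)` are sums of direct factors of these, given by algebraic projectors). A
Tate tensor `t` is an element of `End V ⊗ End V` which is fixed by a subgroup of finite index under
conjugation. With the polarization this is the same as a Tate class in `H¹(A)^{⊗ 4}(2)`, so a Tate
class of codimension two on `A ^ 4` (`Pool.Agent.K1H15.P1.tensor_iff`). It acts on the forms through
two of the variables `a ≠ b` (`act a b t`); as a correspondence of `A ^ {2m}` this is the external
product of `t` with the diagonal of the other factors. The algebra generated by these operators is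
`tateAlg ρ`.

The theorem: **for every `m` the algebra generated by the Tate classes of codimension two on `A ^ 4`
contains a projector whose image is the space of all Tate classes of codimension `m`.** So, if the
Tate classes of codimension two on `A ^ 4` are algebraic, for example if they are combinations of
products of divisors, then the projectors onto the Tate classes of all powers of `A`, in all
codimensions, are given by algebraic correspondences, although it is not known (and not claimed) that
the Tate classes themselves are algebraic; the exotic ones among them need not be generated by the
ones of codimension two.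

The proof. Let `L` be the Lie algebra of the operators which kill all Tate forms. (1) The forms
killed by `L` are exactly the Tate forms, for every group (`tate_of_kills`); so Tate tensors are the
tensors killed by `L` (`tateTensor_iff`). (2) The trace form is nondegenerate on `L`, and the central
elements of `L` are semisimple (`central_ss`). (3) In the algebra `𝒜` generated by the tensors killed
by `L` choose an idempotent `p` which fixes the forms killed by `L` and has minimal rank. Then for
`T ∈ 𝒜` which commutes with `p` and kills those forms the operator `T p` is nilpotent (Fitting). For a
central element `z` this gives `z p = 0`. If the derived algebra, which is semisimple, did not act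
trivially on the image of `p`, the Casimir tensor of the trace form of this representation would be an
element of `𝒜` with nonzero trace on the image of `p`; but it kills the forms killed by `L`, so it is
nilpotent, a contradiction (`exists_projector`).
-/

set_option autoImplicit false

namespace Pool.Agent.Results.MP_7b53ad_ag.ProjectorOntoTateClasses

open Module Pool.Agent.H204R3.SP Pool.Agent.H204R3.GP Pool.Agent.K1H15.P1

/-- The algebra of operators generated by the Tate classes of codimension two on `A ^ 4` contains a
projector onto the Tate classes in `H¹(A)^{⊗ 2m}(m)`, for every `m`. -/
theorem result (ℓ : ℕ) [Fact ℓ.Prime] {V : Type} [AddCommGroup V] [Module ℚ_[ℓ] V]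
    [FiniteDimensional ℚ_[ℓ] V] {Γ : Type} [Group Γ] (ρ : Representation ℚ_[ℓ] Γ V)
    (χ : Γ →* ℚ_[ℓ]) (ω : V →ₗ[ℚ_[ℓ]] V →ₗ[ℚ_[ℓ]] ℚ_[ℓ])
    (hnd : ∀ u, (∀ v, ω u v = 0) → u = 0)
    (hω : ∀ s u v, ω (ρ s u) (ρ s v) = χ s * ω u v)
    -- the theorem of Faltings, Zarhin and Mori
    (hss : FiniteIndexSemisimple ρ) (m : ℕ) :
    ∃ P ∈ tateAlg ρ (Fin m × Fin 2), P * P = P ∧
      ∀ φ : Fm ℚ_[ℓ] V (Fin m × Fin 2), P φ = φ ↔ IsTate ρ χ m φ :=
  exists_tate_projector hnd hω hss m

end Pool.Agent.Results.MP_7b53ad_ag.ProjectorOntoTateClasses
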