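import Pool.Agent.K1H12.UN.Ab

/-!
# MP_7b53ad_ag: Tate classes on almost all abelian varieties in families with unitary monodromy

Let `F i`, for `i` in a finite set, be families of abelian varieties `A_s` over finite fields of
characteristic `p` with an action of a CM field `K i`, such that the eigenspaces of `K i` in the
first cohomology have dimension `r i ≥ 2`, and with large unitary monodromy (`IsUnitaryFamily`; for
example the Jacobians of the curves `y ^ N = f(x)`, `N` prime, and the families of abelian varieties
of Weil type). For `s` in the set `S i m` of the parameters with coordinates in the field with
`p ^ m` elements the characteristic polynomial of the Frobenius endomorphism on the eigenspace of an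
embedding `σ` of `K i` is the image under `σ` of the polynomial `P i m s`.

Then for all `ε > 0` and all large `m`, for all but at most `ε * ∏ i, #S_i(m)` of the tuples `s` in
the product of the sets `S_i(m)`, **all Tate classes on all abelian varieties `B` which are isogenous
to products of powers of the `A_{i, s_i}`, in all codimensions and over all finite extensions, are
polynomials in classes of divisors and in Weil classes**, the Tate classes which are products of
elements of determinants of the eigenspaces of the `K i`. So the Tate conjecture for these varieties
`B` is equivalent to the algebraicity of the Weil classes. If the determinants of the Frobenius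
endomorphism on the eigenspaces are independent (`Independent`: a product of powers of their
conjugates is a positive rational number only if complex conjugate factors have the same exponents)
then all Tate classes on `B` are polynomials in classes of divisors, and **the Tate conjecture is
true for `B`**.

As usual `V` is the first cohomology of `B` with complex coefficients (the coefficients are extended
to an algebraically closed field, which is isomorphic to the complex numbers), `F` is the Frobenius
endomorphism over the field with `q = p ^ m` elements, which is semisimple by a theorem of Weil, and
the Tate classes of codimension one are the combinations of the classes of divisors by the theorem of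
Tate.

From the starting library: the second moment method and the existence of the primes. The part on the
unitary similitudes and on the multiplicative relations is new (`Pool.Agent.K1H12.UN`); it is shared
with the result `UnitaryFamilies` of MP_af4e75_ag, which treats products of varieties with middle
dimensional cohomology and independent determinants; Weil classes do not appear there.
-/

open Polynomial NumberField

namespace Pool.Agent.Results.MP_7b53ad_ag.UnitaryFamilies

open Pool.Agent.K1H12.UN

/-- **The Tate classes on the abelian varieties isogenous to products of powers of almost all members
of families with unitary monodromy are polynomials in classes of divisors and in Weil classes; they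
are polynomials in classes of divisors if the determinants are independent.** -/
theorem result {p : ℕ} (hp : p.Prime) {I : Type} [Fintype I] (K : I → Type)
    [∀ i, Field (K i)] [∀ i, NumberField (K i)] [∀ i, IsCMField (K i)] (r l₀ : I → ℕ)
    (S : I → ℕ → Type) [∀ i m, Fintype (S i m)] (P : ∀ i m, S i m → (𝓞 (K i))[X])
    (Δ : ∀ i, ℕ → Set (𝓞 (K i)))
    (hF : ∀ i, IsUnitaryFamily p (K i) (r i) (l₀ i) (S i) (P i) (Δ i)) (ε : ℝ) (hε : 0 < ε) :
    ∃ m₀ : ℕ, ∀ m ≥ m₀, ({s : ∀ i, S i m |
        ¬ ∀ (V : Type) [AddCommGroup V] [Module ℂ V] (F : V →ₗ[ℂ] V),
          IsFrobeniusOfProduct (fun i => P i m (s i)) F →
            ∀ (n : ℕ) (x : ExteriorAlgebra ℂ V), IsTateClass F (p ^ m) n x →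
              x ∈ Algebra.adjoin ℂ (divisorClasses F (p ^ m) ∪
                weilClasses (fun i => P i m (s i)) F (p ^ m)) ∧
              (Independent K (fun i => (-1) ^ r i * (P i m (s i)).coeff 0) ∅ →
                x ∈ Algebra.adjoin ℂ (divisorClasses F (p ^ m)))}.ncard : ℝ) ≤
      ε * ∏ i, (Nat.card (S i m) : ℝ) :=
  ab_main hp K r l₀ S P Δ hF ε hε

end Pool.Agent.Results.MP_7b53ad_ag.UnitaryFamilies
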